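import Pool.Agent.Helper81.M9.St.G8
import Pool.Agent.Helper81.M9.St.H1
import Pool.Agent.Helper46.M9.Gen.Cpt

/-!
# M9: smoothness of the family, positivity of the expression in (T)
-/

open Filter Metric Module Set
open scoped Topology ContDiff Matrix Matrix.Norms.Elementwise ComplexConjugate

set_option maxSynthPendingDepth 3

namespace Pool.Agent.Helper46.M9A
open Pool.Agent.Helper20.PC Pool.Agent.Helper20.HP Pool.Agent.Helper20.M8 Pool.Agent.Helper20.MB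
open Pool.Agent.Helper46.M8 Pool.Agent.Helper81.M9
open Pool.Agent.Helper46

/-- the family is smooth. -/
theorem smF9 {δ ε lam : ℝ} (hδ : |δ| ≤ 1/100) {U : Mat} (hU : Uᴴ * U = 1) (z : V) :
    Gen.SmF (fun U => D9 U δ ε lam) U z := by
  have hG := D9_good hU hδ ε lam z
  have hpar : ContDiffAt ℝ ∞ (fun q : Mat × V => (((q.1, δ, ε), q.2) : Pm × V)) (U, z) := by
    fun_prop
  refine ⟨?_, ?_, ?_, ?_, hG⟩
  · exact ContDiffAt.comp (U, z) (f := fun q : Mat × V => (((q.1, δ, ε), q.2) : Pm × V))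
      (contDiffAt_hm (q := (((U, δ, ε), z) : Pm × V)) hU hδ) hpar
  · exact ContDiffAt.comp (U, z) (f := fun q : Mat × V => (((q.1, δ, ε), q.2) : Pm × V))
      (contDiffAt_AL9 (q := (((U, δ, ε), z) : Pm × V)) hU hδ) hpar
  · exact ContDiffAt.comp (g := kL9) (U, z) (f := fun q : Mat × V => q.2) hG.hk contDiffAt_snd
  · exact ContDiffAt.comp (U, z) (f := fun q : Mat × V => (((q.1, δ, ε), q.2) : Pm × V))
      (contDiffAt_SL9 lam (q := (((U, δ, ε), z) : Pm × V)) hU hδ) hpar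

section
variable {U : Mat} {δ ε lam : ℝ}

private lemma OmV_add9 (U : Mat) (δ ε : ℝ) (X a b : V) (p : Y9) :
    OmV (AL9 U δ ε) 0 X (a + b) p = OmV (AL9 U δ ε) 0 X a p + OmV (AL9 U δ ε) 0 X b p := by
  simp only [OmV, map_add, _root_.add_apply, _root_.sub_apply, ContinuousLinearMap.comp_apply]
  abel

private lemma OmV_smul9 (U : Mat) (δ ε : ℝ) (X a : V) (r : ℝ) (p : Y9) :
    OmV (AL9 U δ ε) 0 X (r • a) p = r • OmV (AL9 U δ ε) 0 X a p := by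
  simp only [OmV, map_smul, _root_.smul_apply, _root_.add_apply, _root_.sub_apply,
    ContinuousLinearMap.comp_apply, smul_sub, smul_add]

private lemma OmV_self9 (U : Mat) (δ ε : ℝ) (X : V) (p : Y9) :
    OmV (AL9 U δ ε) 0 X X p = 0 := by
  simp only [OmV, _root_.add_apply, _root_.sub_apply, ContinuousLinearMap.comp_apply]
  abel

/-- the term `h(t, t)`. -/
private lemma t_frame (hU : Uᴴ * U = 1) (hδ : |δ| ≤ 1/100) {W : Fin 4 → V}
    (hW : ON (hm U δ 0) W) (y p : Y9) :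
    ∃ t : V, (∀ ξ, hm U δ 0 t ξ = kL9 0 y (OmV (AL9 U δ ε) 0 (W 0) ξ p)) ∧
      hm U δ 0 t t = ∑ k : Fin 3, (kL9 0 y (OmV (AL9 U δ ε) 0 (W 0) (W k.succ) p)) ^ 2 := by
  have hW' : ∀ a b, hm U δ 0 (W a) (W b) = if a = b then 1 else 0 := hW
  obtain ⟨c, hc⟩ : ∃ c : Fin 4 → ℝ, ∀ k, c k = kL9 0 y (OmV (AL9 U δ ε) 0 (W 0) (W k) p) :=
    ⟨_, fun k => rfl⟩
  have hc0 : c 0 = 0 := by
    rw [hc, OmV_self9, map_zero]
  have hWc : ∀ b, hm U δ 0 (∑ k, c k • W k) (W b) = c b := by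
    intro b
    rw [map_sum, _root_.sum_apply, Finset.sum_eq_single b]
    · rw [map_smul, _root_.smul_apply, hW', if_pos rfl, smul_eq_mul, mul_one]
    · intro k _ hk
      rw [map_smul, _root_.smul_apply, hW', if_neg hk, smul_zero]
    · intro h
      exact absurd (Finset.mem_univ b) h
  refine ⟨∑ k, c k • W k, fun ξ => ?_, ?_⟩
  · have hL : kL9 0 y (OmV (AL9 U δ ε) 0 (W 0) (∑ a, hm U δ 0 ξ (W a) • W a) p)
        = ∑ a, hm U δ 0 ξ (W a) * c a := by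
      simp only [Fin.sum_univ_four, OmV_add9, OmV_smul9, map_add, map_smul, smul_eq_mul, hc]
    rw [frame_sum hU hδ hW] at hL
    rw [hL, hm_symm hU hδ]
    rw [map_sum]
    refine Finset.sum_congr rfl fun a _ => ?_
    rw [map_smul, smul_eq_mul]
    ring
  · have e : hm U δ 0 (∑ k, c k • W k) (∑ k, c k • W k) = ∑ k, c k * c k := by
      conv_lhs => rw [map_sum (hm U δ 0 (∑ k, c k • W k))]
      refine Finset.sum_congr rfl fun a _ => ?_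
      rw [map_smul, smul_eq_mul, hWc]
    rw [e, Fin.sum_univ_succ, hc0, mul_zero, zero_add]
    refine Finset.sum_congr rfl fun a _ => ?_
    rw [hc, pow_two]

/-- homogeneity of the constraints. -/
private lemma Cns9_smul {ε c₁ c₂ : ℝ} {B : Fin 6 → Fin 6 → ℝ} (h : Cns9 ε c₁ c₂ B) (r : ℝ) :
    Cns9 ε (r * c₁) (r * c₂) (fun i j => r * B i j) := by
  obtain ⟨h1, h2, h3, h4, h5, h6, h7, h8⟩ := h
  refine ⟨fun i j => ?_, ?_, ?_, ?_, fun k l a b c d e => ?_, fun k l a b c d e => ?_, ?_, ?_⟩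
  · simp only []
    rw [h1 i j]
    ring
  · simp only [h2, mul_zero]
  · simp only [h3, mul_zero]
  · linear_combination r ^ 2 * h4
  · linear_combination r ^ 2 * h5 k l a b c d e
  · linear_combination r ^ 2 * h6 k l a b c d e
  · linear_combination r ^ 2 * h7
  · linear_combination r ^ 2 * h8

private lemma nrm9_smul (r u c₁ c₂ : ℝ) (B : Fin 6 → Fin 6 → ℝ) :
    nrm9 (r * u) (r * c₁) (r * c₂) (fun i j => r * B i j) = r ^ 2 * nrm9 u c₁ c₂ B := by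
  simp only [nrm9, mul_pow, mul_add, Finset.mul_sum]

private lemma nrm9_zero {u c₁ c₂ : ℝ} {B : Fin 6 → Fin 6 → ℝ} (h : nrm9 u c₁ c₂ B = 0) :
    u = 0 ∧ c₁ = 0 ∧ c₂ = 0 ∧ ∀ i j, B i j = 0 := by
  unfold nrm9 at h
  have hb0 : 0 ≤ ∑ a, ∑ b, B a b ^ 2 :=
    Finset.sum_nonneg fun a _ => Finset.sum_nonneg fun b _ => sq_nonneg _
  have n1 := sq_nonneg u
  have n2 := sq_nonneg c₁
  have n3 := sq_nonneg c₂
  refine ⟨?_, ?_, ?_, fun i j => ?_⟩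
  · exact pow_eq_zero_iff (two_ne_zero) |>.1 (by linarith)
  · exact pow_eq_zero_iff (two_ne_zero) |>.1 (by linarith)
  · exact pow_eq_zero_iff (two_ne_zero) |>.1 (by linarith)
  · have e1 : B i j ^ 2 ≤ ∑ b, B i b ^ 2 :=
      Finset.single_le_sum (f := fun b => B i b ^ 2) (fun i _ => sq_nonneg _) (Finset.mem_univ j)
    have e2 : ∑ b, B i b ^ 2 ≤ ∑ a, ∑ b, B a b ^ 2 :=
      Finset.single_le_sum (f := fun a => ∑ b, B a b ^ 2)
        (fun i _ => Finset.sum_nonneg fun b _ => sq_nonneg _) (Finset.mem_univ i)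
    have n4 := sq_nonneg (B i j)
    exact pow_eq_zero_iff (two_ne_zero) |>.1 (by linarith)

private lemma nrm9_nonneg (u c₁ c₂ : ℝ) (B : Fin 6 → Fin 6 → ℝ) : 0 ≤ nrm9 u c₁ c₂ B := by
  unfold nrm9
  have hb0 : 0 ≤ ∑ a, ∑ b, B a b ^ 2 :=
    Finset.sum_nonneg fun a _ => Finset.sum_nonneg fun b _ => sq_nonneg _
  positivity

/-- positivity of `TF9` on the cone. -/
theorem TF9_pos (hδ0 : 0 ≤ δ) (hδ : δ ≤ 1/100) (hε0 : 0 ≤ ε) (hε : ε ≤ 1)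
    (hq : ∀ q ∈ Kc9, q.1.2.1 = δ → q.1.2.2 = ε → 0 < TFp9 lam q)
    (hU : Uᴴ * U = 1) {W : Fin 4 → V} {Y : V} (hW : ON9 U δ (0, W, Y)) {u c₁ c₂ : ℝ}
    {B : Fin 6 → Fin 6 → ℝ} (hC : Cns9 ε c₁ c₂ B) (hn : nrm9 u c₁ c₂ B ≠ 0) :
    0 < TF9 U δ ε lam W Y u c₁ c₂ B := by
  have hn0 : 0 < nrm9 u c₁ c₂ B := lt_of_le_of_ne (nrm9_nonneg _ _ _ _) (Ne.symm hn)
  set r : ℝ := (Real.sqrt (nrm9 u c₁ c₂ B))⁻¹ with hr
  have hr0 : 0 < r := inv_pos.2 (Real.sqrt_pos.2 hn0)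
  have hr2 : r ^ 2 * nrm9 u c₁ c₂ B = 1 := by
    rw [hr, inv_pow, Real.sq_sqrt hn0.le, inv_mul_cancel₀ hn]
  have h1 := hq ((U, δ, ε), (W, Y), r * u, r * c₁, r * c₂, fun i j => r * B i j)
    ⟨hU, hδ0, hδ, hε0, hε, hW, Cns9_smul hC r, by
      change nrm9 (r * u) (r * c₁) (r * c₂) (fun i j => r * B i j) = 1
      rw [nrm9_smul, hr2]⟩ rfl rfl
  have h2 : TFp9 lam ((U, δ, ε), (W, Y), r * u, r * c₁, r * c₂, fun i j => r * B i j)
      = r ^ 2 * TF9 U δ ε lam W Y u c₁ c₂ B := by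
    simp only [TFp9, TF9]
    exact Tj9_homog _ _ _ _ _ _ _ _ _ _ _ _ _ _ _ _
  rw [h2] at h1
  exact pos_of_mul_pos_right h1 (by positivity)

/-! ### dependence on the frame -/
section indep
variable {W W' : Fin 4 → V} (Y Y' : V)

private lemma vF_ind (U : Mat) (δ : ℝ) (h : W 0 = W' 0) :
    vF U δ (0, W, Y) = vF U δ (0, W', Y') := by
  simp only [vF, h]

private lemma sC_ind (U : Mat) (δ : ℝ) (h : W 0 = W' 0) :
    sC U δ (0, W, Y) = sC U δ (0, W', Y') := by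
  simp only [sC, vF_ind Y Y' U δ h]

private lemma fE0 (U : Mat) (δ : ℝ) (s : Fr9) : fE U δ s 0 = (1, 0) := rfl
private lemma fE1 (U : Mat) (δ : ℝ) (s : Fr9) : fE U δ s 1 = (Complex.I, 0) := rfl
private lemma fE2 (U : Mat) (δ : ℝ) (s : Fr9) : fE U δ s 2 = (0, vF U δ s) := rfl
private lemma fE3 (U : Mat) (δ : ℝ) (s : Fr9) : fE U δ s 3 = (0, iL (vF U δ s)) := rfl

private lemma bF_ind (U : Mat) (δ : ℝ) (h : W 0 = W' 0) (y w : Y9) :
    bF U δ ((0, W, Y), y, w) 0 2 = bF U δ ((0, W', Y'), y, w) 0 2 ∧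
      bF U δ ((0, W, Y), y, w) 1 3 = bF U δ ((0, W', Y'), y, w) 1 3 := by
  constructor
  · simp only [bF, Pool.Agent.Helper81.M9.cmp, fE0, fE2, vF_ind Y Y' U δ h]
  · simp only [bF, Pool.Agent.Helper81.M9.cmp, fE1, fE3, vF_ind Y Y' U δ h]

private lemma tauS_ind (U : Mat) (δ : ℝ) (h : W 0 = W' 0) (y w : Y9) :
    tauS U δ ((0, W, Y), y, w) = tauS U δ ((0, W', Y'), y, w) := by
  rw [tauS, tauS, (bF_ind Y Y' U δ h y w).1, (bF_ind Y Y' U δ h y w).2, sC_ind Y Y' U δ h]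

end indep

/-- adapted frames for `X`, `Z`. -/
theorem frame_XZ (hδ' : |δ| ≤ 1/100) (hU : Uᴴ * U = 1) {X Z : V} {y w : Y9}
    (hX : hm U δ 0 X X = 1) (hXZ : hm U δ 0 X Z = 0) :
    ∃ (W : Fin 4 → V) (Y : V) (u : ℝ), ON9 U δ (0, W, Y) ∧ W 0 = X ∧
      Z = u • W 1 - tauS U δ ((0, W, Y), y, w)
        • (vF U δ (0, W, Y) - sC U δ (0, W, Y) • W 0) := by
  obtain ⟨W', Y', u', hON', hW0', -⟩ := exists_frame9 hU hδ' X Z hX hXZ
  have h1 := (sC_pos hU hδ' hON').2.2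
  have h2 : hm U δ 0 X (vF U δ (0, W', Y')) = sC U δ (0, W', Y') := by
    rw [← h1, sV, hm_symm hU hδ', ← hW0']
  obtain ⟨τ, hτ⟩ : ∃ τ, τ = tauS U δ ((0, W', Y'), y, w) := ⟨_, rfl⟩
  have hZ0 : hm U δ 0 X (Z + τ • (vF U δ (0, W', Y') - sC U δ (0, W', Y') • X)) = 0 := by
    rw [map_add, map_smul, map_sub, map_smul, hXZ, h2, hX]
    simp
  obtain ⟨W, Y, u, hON, hW0, hZW⟩ := exists_frame9 hU hδ' X _ hX hZ0
  have h0 : W 0 = W' 0 := by rw [hW0, hW0']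
  refine ⟨W, Y, u, hON, hW0, ?_⟩
  rw [tauS_ind Y Y' U δ h0, sC_ind Y Y' U δ h0, vF_ind Y Y' U δ h0, ← hZW, hτ, hW0]
  abel

/-- the expression in (T) in frames. -/
theorem TE_frame (hδ' : |δ| ≤ 1/100) (hU : Uᴴ * U = 1) {W : Fin 4 → V} {Y : V}
    (hON : ON9 U δ (0, W, Y)) (u : ℝ) (y w : Y9) :
    Gen.TE (D9 U δ ε lam) 0 (W 0) (u • W 1 - tauS U δ ((0, W, Y), y, w)
        • (vF U δ (0, W, Y) - sC U δ (0, W, Y) • W 0)) y w
      = TF9 U δ ε lam W Y u (c1S U δ ε ((0, W, Y), y, w)) (c2S U δ ε ((0, W, Y), y, w))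
        (BS U δ ((0, W, Y), y, w)) := by
  obtain ⟨t, ht, htt⟩ := t_frame (ε := ε) hU hδ' hON.1 y w
  have hS : Gen.SmF (fun U => D9 U δ ε lam) U 0 := smF9 hδ' hU 0
  rw [Gen.TE_eq (D := fun U => D9 U δ ε lam) (p := U) hS (t := t) ht]
  have h3 := TT_eq9 hU hδ' ε lam hON u y w
  refine Eq.trans ?_ h3
  rw [← htt]
  rfl

/-- positivity of the expression in (T). -/
theorem TE9_pos (hδ0 : 0 ≤ δ) (hδ : δ ≤ 1/100) (hε0 : 0 < ε) (hε : ε ≤ 1)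
    (hq : ∀ q ∈ Kc9, q.1.2.1 = δ → q.1.2.2 = ε → 0 < TFp9 lam q)
    (hU : Uᴴ * U = 1) {X Z : V} {y w : Y9} (hX : hm U δ 0 X X = 1) (hXZ : hm U δ 0 X Z = 0)
    (hy : kL9 0 y y = 1) (hyw : kL9 0 y w = 0) (hne : Z ≠ 0 ∨ w ≠ 0) :
    0 < Gen.TE (D9 U δ ε lam) 0 X Z y w := by
  have hδ' : |δ| ≤ 1/100 := by rw [abs_of_nonneg hδ0]; exact hδ
  obtain ⟨W, Y, u, hON, hW0, hZ⟩ := frame_XZ (y := y) (w := w) hδ' hU hX hXZ
  have e1 := TE_frame (ε := ε) (lam := lam) hδ' hU hON u y w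
  rw [← hZ, hW0] at e1
  rw [e1]
  refine TF9_pos hδ0 hδ hε0.le hε hq hU hON (Cns_S9 U δ ε ((0, W, Y), y, w)) ?_
  intro hn
  obtain ⟨n1, n2, n3, n4⟩ := nrm9_zero hn
  have hw : w = 0 := p_zero9 hU hδ' hε0.ne' ((0, W, Y), y, w) hON hy hyw n2 n3 n4
  have hb02 : bF U δ ((0, W, Y), y, w) 0 2 = 0 := by
    rw [c1S] at n2
    exact (mul_eq_zero.1 n2).resolve_left hε0.ne'
  have hb13 : bF U δ ((0, W, Y), y, w) 1 3 = 0 := by
    rw [c2S] at n3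
    exact (mul_eq_zero.1 n3).resolve_left hε0.ne'
  have hZ0 : Z = 0 := by
    rw [hZ, tauS, hb02, hb13, n1, mul_zero, mul_zero, add_zero, mul_zero, zero_smul, zero_smul,
      sub_zero]
  rcases hne with h | h
  · exact h hZ0
  · exact h hw

end

end Pool.Agent.Helper46.M9A
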