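import Pool.Agent.Helper46.M9.Asm.I1
import Pool.Agent.Helper46.M9.St.N9
import Pool.Agent.Helper46.M9.Final

/-!
# M9: the final theorem
-/

open Set Metric
open scoped Manifold ContDiff Matrix Matrix.Norms.Elementwise

namespace Pool.Agent.Helper46.M9A
open Pool.Agent.Helper20.HP Pool.Agent.Helper20.MB Pool.Agent.Helper46.M8 Pool.Agent.Helper81.M9
open Pool.Agent.Helper46.M9 (M9 inclM9 M9_final_of_TE inv9_of_good)

/-- **`M⁹` is a smooth submanifold of the `3 × 3` matrices which admits a metric of positive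
curvature**. -/
theorem M9_final :
    ∃ (_ : ChartedSpace (EuclideanSpace ℝ (Fin 9)) M9) (_ : IsManifold (𝓡 9) ∞ M9),
    IsSmoothImmersion (𝓡 9) inclM9 ∧ AdmitsPositiveCurvature (𝓡 9) M9 := by
  obtain ⟨δ, ε, lam, hδ0, hδ, hε0, hε, hq⟩ := exists_eps9
  have hδ' : |δ| ≤ 1/100 := by rw [abs_of_nonneg hδ0.le]; exact hδ
  refine M9_final_of_TE (D := fun U => D9 U δ ε lam)
    (inv9_of_good hδ' fun U hU z => D9_good hU hδ' ε lam z)
    (fun U hU => smF9 hδ' hU 0) ?_
  intro U hU X Z y w hX hXZ hy hyw hne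
  exact TE9_pos hδ0.le hδ hε0 hε hq hU hX hXZ hy hyw hne

end Pool.Agent.Helper46.M9A
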